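import Pool.Agent.Q110.Dio

/-!
# Small integer solutions of systems `x_i = 1`, `x_i + x_j = x_k`

Positive answer to Q1 of MP_80f852_al.
-/

set_option autoImplicit false

open Matrix

namespace Pool.Agent.Results.MP_80f852_al.SmallIntegerSolutions

open Pool.Agent.Q110.Tys Pool.Agent.Q110.CB Pool.Agent.Q110.Dio

/-- A maximal minor of an integer matrix with linearly independent rows is nonzero. -/
theorem exists_minor {r n : ℕ} (A : Matrix (Fin r) (Fin n) ℤ)
    (hA : ∀ z : Fin r → ℤ, z ᵥ* A = 0 → z = 0) : ∃ p : Fin r → Fin n, (A.submatrix id p).det ≠ 0 := by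
  by_contra hcon
  push Not at hcon
  have h1 := cauchy_binet A Aᵀ
  rw [Finset.sum_eq_zero fun p _ => by rw [hcon p, zero_mul]] at h1
  have h2 : (A * Aᵀ).det = 0 := by
    rcases mul_eq_zero.1 h1 with h | h
    · exact (Nat.factorial_ne_zero _ (by exact_mod_cast h)).elim
    · exact h
  obtain ⟨z, hz0, hz⟩ := Matrix.exists_mulVec_eq_zero_iff.2 h2
  apply hz0
  apply hA
  have h3 : (z ᵥ* A) ⬝ᵥ (z ᵥ* A) = 0 := by
    have h4 : z ⬝ᵥ ((A * Aᵀ) *ᵥ z) = (z ᵥ* A) ⬝ᵥ (z ᵥ* A) := by
      rw [← Matrix.mulVec_mulVec, Matrix.dotProduct_mulVec, Matrix.mulVec_transpose]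
    rw [← h4, hz, dotProduct_zero]
  exact dotProduct_self_eq_zero.1 h3

/-- **Q1 is true.**  For every `x ∈ ℤ^n` there is `y ∈ ℤ^n` with `|y_i| ≤ 2^(n-1)` for all `i` that
satisfies (U) and (A). -/
theorem result (n : ℕ) (x : Fin n → ℤ) : ∃ y : Fin n → ℤ, (∀ i, |y i| ≤ 2 ^ (n - 1)) ∧
    (∀ i, x i = 1 → y i = 1) ∧ ∀ i j k, x k = x i + x j → y k = y i + y j := by
  classical
  by_cases hone : ∃ i₀, x i₀ = 1
  · obtain ⟨i₀, hi₀⟩ := hone
    let v : Eqn n → Fin n → ℚ := fun e j => (e.ext (some j) : ℚ)
    let S : Set (Eqn n) := {e | e.Sat x}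
    have hv1 : v (Eqn.one i₀) = Pi.single i₀ 1 := by
      funext j
      by_cases hj : j = i₀
      · subst hj
        simp [v, Eqn.ext]
      · simp [v, Eqn.ext, hj]
    have hli : LinearIndepOn ℚ id ({v (Eqn.one i₀)} : Set (Fin n → ℚ)) := by
      refine LinearIndepOn.singleton ?_
      rw [id, hv1]
      intro h
      have := congrFun h i₀
      simp at this
    have hsub : ({v (Eqn.one i₀)} : Set (Fin n → ℚ)) ⊆ v '' S := by
      rw [Set.singleton_subset_iff]
      exact ⟨_, hi₀, rfl⟩
    obtain ⟨b, hbS, hsb, hspan, hbli⟩ := exists_linearIndepOn_id_extension hli hsub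
    have hbli' : LinearIndependent ℚ (fun w : b => (w : Fin n → ℚ)) := hbli
    have hbfin : b.Finite := hbli'.setFinite
    have : Fintype b := hbfin.fintype
    set r := Fintype.card b with hr
    have hrn : r ≤ n := by
      have := hbli'.fintype_card_le_finrank
      rwa [Module.finrank_fintype_fun_eq_card, Fintype.card_fin] at this
    let e : Fin r ≃ b := (Fintype.equivFin b).symm
    have hch : ∀ a : Fin r, ∃ q ∈ S, v q = (e a : Fin n → ℚ) := fun a => hbS (e a).2
    choose eqs heqS heq using hch
    -- one of the equations is of the form `x_i = 1`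
    have hweq : ∃ a i, eqs a = Eqn.one i := by
      obtain ⟨a, ha⟩ := e.surjective ⟨v (Eqn.one i₀), hsb rfl⟩
      refine ⟨a, ?_⟩
      have h1 : v (eqs a) = v (Eqn.one i₀) := by
        rw [heq a, ha]
      have h2 : (eqs a).Sat x := heqS a
      rcases h3 : eqs a with i | ⟨i, j, k⟩
      · exact ⟨i, rfl⟩
      · exfalso
        rw [h3] at h1 h2
        have h4 : (Eqn.add i j k).Sat (fun l => (x l : ℚ)) := by
          simp only [Eqn.Sat] at h2 ⊢
          exact_mod_cast h2
        rw [sat_iff] at h4
        have h5 : ∑ l, v (Eqn.add i j k) l * (x l : ℚ) = (x i₀ : ℚ) := by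
          rw [h1, hv1, Finset.sum_eq_single i₀]
          · simp
          · intro l _ hl
            simp [hl]
          · intro h
            exact (h (Finset.mem_univ _)).elim
        have h6 : ∑ l, (((Eqn.add i j k).ext (some l) : ℤ) : ℚ) * (x l : ℚ) = (x i₀ : ℚ) := h5
        rw [h6, hi₀] at h4
        simp [Eqn.ext, Pi.single_apply] at h4
    set A : Matrix (Fin r) (Fin n) ℤ := Matrix.of fun a j => (eqs a).ext (some j) with hA
    set c : Fin r → ℤ := fun a => -(eqs a).ext none with hc
    have hdot : ∀ (z : Fin n → ℤ) (q : Eqn n), q.Sat z ↔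
        q.ext none + ∑ j, q.ext (some j) * z j = 0 := by
      intro z q
      have h1 : q.Sat z ↔ q.Sat (fun l => (z l : ℚ)) := by
        cases q <;> simp only [Eqn.Sat] <;> norm_cast
      rw [h1, sat_iff]
      norm_cast
    have hAx : ∀ z : Fin n → ℤ, A *ᵥ z = c ↔ ∀ a, (eqs a).Sat z := by
      intro z
      rw [funext_iff]
      refine forall_congr' fun a => ?_
      rw [hdot z (eqs a)]
      simp only [Matrix.mulVec, dotProduct, hA, hc, Matrix.of_apply]
      constructor <;> intro h <;> linarith
    have hmin : ∃ p : Fin r → Fin n, (A.submatrix id p).det ≠ 0 := by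
      refine exists_minor A fun z hz => ?_
      have hli2 : LinearIndependent ℚ (fun a => v (eqs a)) := by
        have : (fun a => v (eqs a)) = (fun w : b => (w : Fin n → ℚ)) ∘ e := by
          funext a
          exact heq a
        rw [this]
        exact hbli'.comp _ e.injective
      have h1 : ∑ a, (z a : ℚ) • v (eqs a) = 0 := by
        funext j
        have h2 := congrFun hz j
        simp only [Matrix.vecMul, dotProduct, hA, Matrix.of_apply, Pi.zero_apply] at h2
        rw [Finset.sum_apply]
        simp only [Pi.smul_apply, smul_eq_mul, v, Pi.zero_apply]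
        exact_mod_cast h2
      funext a
      have := Fintype.linearIndependent_iff.1 hli2 (fun a => (z a : ℚ)) h1 a
      exact_mod_cast this
    have hbound := prod_weight_le eqs hweq
    rw [Fintype.card_fin] at hbound
    obtain ⟨y, hy, hyb⟩ := bfrt A c (2 ^ (r - 1)) hmin (fun f => by
      refine le_trans ?_ ((minor_bound eqs f).trans hbound)
      have h1 : (Matrix.of fun i j => (f j).elim (c i) (A i)) =
          (Matrix.of fun a b => (eqs a).ext (f b)) *
            Matrix.diagonal (fun j => (f j).elim (-1 : ℤ) fun _ => 1) := by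
        ext i j
        rw [Matrix.mul_diagonal, Matrix.of_apply, Matrix.of_apply]
        cases f j <;> simp [hc, hA]
      rw [h1, Matrix.det_mul, Matrix.det_diagonal, abs_mul, Finset.abs_prod]
      have h2 : ∏ j, |(f j).elim (-1 : ℤ) fun _ => 1| = 1 := by
        refine Finset.prod_eq_one fun j _ => ?_
        cases f j <;> simp
      rw [h2, mul_one]) ⟨x, (hAx x).2 heqS⟩
    have hysat := (hAx y).1 hy
    have hall : ∀ q : Eqn n, q.Sat x → q.Sat y := by
      intro q hq
      rw [hdot]
      have h1 := (hdot x q).1 hq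
      have h2 : v q ∈ Submodule.span ℚ b := hspan ⟨q, hq, rfl⟩
      have h3 : ∀ w ∈ Submodule.span ℚ b, ∑ j, w j * ((y j : ℚ) - x j) = 0 := by
        intro w hw
        induction hw using Submodule.span_induction with
        | mem w hw =>
          obtain ⟨a, ha⟩ := e.surjective ⟨w, hw⟩
          have h4 : w = v (eqs a) := by rw [heq a, ha]
          have h5 := (hdot x _).1 (heqS a)
          have h6 := (hdot y _).1 (hysat a)
          rw [h4]
          simp only [v, mul_sub, Finset.sum_sub_distrib]
          have h7 : ∑ j, (eqs a).ext (some j) * y j = ∑ j, (eqs a).ext (some j) * x j := by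
            linarith
          rw [sub_eq_zero]
          exact_mod_cast h7
        | zero => simp
        | add w w' _ _ h h' =>
          simp only [Pi.add_apply, add_mul, Finset.sum_add_distrib]
          rw [h, h', add_zero]
        | smul t w _ h =>
          simp only [Pi.smul_apply, smul_eq_mul, mul_assoc]
          rw [← Finset.mul_sum, h, mul_zero]
      have h4 := h3 _ h2
      simp only [v, mul_sub, Finset.sum_sub_distrib] at h4
      rw [sub_eq_zero] at h4
      have h5 : ∑ j, q.ext (some j) * y j = ∑ j, q.ext (some j) * x j := by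
        exact_mod_cast h4
      rw [h5]
      exact h1
    refine ⟨y, fun i => (hyb i).trans ?_, fun i hi => ?_, fun i j k h => ?_⟩
    · exact pow_le_pow_right₀ (by norm_num) (by omega)
    · exact hall (Eqn.one i) hi
    · have h1 : (Eqn.add i j k).Sat y := hall (Eqn.add i j k) h.symm
      exact h1.symm
  · refine ⟨0, fun i => by simp, fun i hi => (hone ⟨i, hi⟩).elim, fun i j k _ => by simp⟩

end Pool.Agent.Results.MP_80f852_al.SmallIntegerSolutions
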